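import Pool.Agent.Lib.MP_be0860_lc.Bi.Final

set_option autoImplicit false

namespace Pool.Agent.Results.MP_be0860_lc.DenseFPT

open Pool.Agent.Lib.MP_be0860_lc

/-- One deterministic exact algorithm for all instances, with rational weights in binary and
arbitrary `k`, whose running time is at most `(β + 1) ^ O(β ^ 3)` times a polynomial in the length
of the input whenever the bipartite independence number is less than `β`. The number `β` is not
part of the input. -/
theorem result : ∃ (f : QInst → Bool × List (ℕ × ℕ)) (tm : Turing.TM2ComputableAux Bool Bool)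
    (C : ℕ), ∀ I : QInst, I.Correct (f I) ∧ ∀ β : ℕ, I.Dense β → ∃ t : ℕ,
      t ≤ (β + 1) ^ (C * β ^ 3) * (I.code.length + 1) ^ C ∧
      Nonempty (Turing.TM2OutputsInTime tm.tm (List.map tm.inputAlphabet.invFun I.code)
        (some (List.map tm.outputAlphabet.invFun (qOutCode (f I)))) t) :=
  Bi.fpt

end Pool.Agent.Results.MP_be0860_lc.DenseFPT
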