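import Pool.Agent.Lib.MP_be0860_lc.Final

set_option autoImplicit false

namespace Pool.Agent.Results.MP_be0860_lc.Scheme

open Pool.Agent.Lib.MP_be0860_lc Pool.Agent.Shared.PolyTime

/-- A deterministic polynomial-time approximation scheme for nonnegative weights. -/
theorem result (ε : ℝ) (hε : 0 < ε) : ∃ f : Inst → Bool × List (ℕ × ℕ),
    Nonempty (Turing.TM2ComputableInPolyTime Inst.code outCode f) ∧
    ∀ I : Inst, ((f I).1 = true ↔ ∃ P, I.IsPerfect P) ∧
      ((f I).1 = true → ∃ M, I.Feasible M ∧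
        (f I).2.toFinset = M.image (fun e => ((e.1 : ℕ), (e.2 : ℕ))) ∧
        ∀ M', I.Feasible M' → (1 - ε) * (I.weight M' : ℝ) ≤ (I.weight M : ℝ)) := by
  obtain ⟨q, hq⟩ := exists_nat_ge (15 + 18 / ε)
  have h0 : 0 < 18 / ε := by positivity
  have h1 : 15 ≤ q := by exact_mod_cast (by linarith : (15 : ℝ) ≤ q)
  refine ⟨fun I => alg q (I.a, I.b, I.k, rows I.adj I.w), PF.tm2 (pf_alg q) _ _ _
    (fun I => (I.a, I.b, I.k, rows I.adj I.w)) code_eq fun _ => rfl, fun I =>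
      ⟨(main q h1 I).1, fun h => ?_⟩⟩
  obtain ⟨M, h2, h3, h4⟩ := (main q h1 I).2 h
  refine ⟨M, h2, h3, fun M' hM' => ?_⟩
  have h5 := h4 M' hM'
  have h6 : (0 : ℝ) ≤ I.weight M' := NNRat.cast_nonneg _
  have h7 : 18 ≤ ε * (q + 3) := by
    have := (div_le_iff₀ hε).1 (by linarith : 18 / ε ≤ (q : ℝ) + 3)
    linarith
  refine le_of_mul_le_mul_left ?_ (show (0 : ℝ) < q + 3 by positivity)
  nlinarith [mul_le_mul_of_nonneg_right h7 h6]

end Pool.Agent.Results.MP_be0860_lc.Scheme
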