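import Pool.Agent.Lib.MP_be0860_lc.QAlg

set_option autoImplicit false

namespace Pool.Agent.Results.MP_be0860_lc.Staircase

open Pool.Agent.Lib.MP_be0860_lc

/-- The problem is solvable in polynomial time on all instances iff it is solvable in polynomial
time on the staircase (chain) graphs `i ~ j ↔ j ≤ i + n` on `2n + 2n` vertices. -/
theorem result : PolySolvable Stair ↔ PolySolvable fun _ => True := stair_iff

end Pool.Agent.Results.MP_be0860_lc.Staircase
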