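import Pool.Agent.Lib.MP_be0860_lc.Sx.Final

set_option autoImplicit false

namespace Pool.Agent.Results.MP_be0860_lc.Subexp

open Pool.Agent.Lib.MP_be0860_lc

/-- A deterministic exact algorithm in time `2 ^ O(n ^ (22 / 23))` times a polynomial in the
length of the input, where `n` is the number of vertices; the weights are arbitrary rational
numbers written in binary. -/
theorem result : ∃ (f : QInst → Bool × List (ℕ × ℕ)) (tm : Turing.TM2ComputableAux Bool Bool)
    (C : ℕ), ∀ I : QInst, I.Correct (f I) ∧ ∃ t : ℕ,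
      (t : ℝ) ≤ 2 ^ (C * ((I.a + I.b : ℕ) : ℝ) ^ (22 / 23 : ℝ)) * ((I.code.length : ℝ) + 1) ^ C ∧
      Nonempty (Turing.TM2OutputsInTime tm.tm (List.map tm.inputAlphabet.invFun I.code)
        (some (List.map tm.outputAlphabet.invFun (qOutCode (f I)))) t) :=
  Sx.subexp

end Pool.Agent.Results.MP_be0860_lc.Subexp
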